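import Mathlib

/-!
# Self-interest subtraction games: tie-breaking discrepancies are bounded

Full answer to the question: for every finite nonempty set `S` of positive integers, any two
tie-breaking settings and each player, the discrepancy is at most `3/2 * max S` in absolute value,
for every heap size.

Idea: by taking `max S` whenever possible a player obtains about half of the heap, whatever the
tie-breaking conventions are, and the two totals together are at most the heap size.
-/

namespace Pool.Agent.Results.MP_5cfb27_co.BoundedDiscrepancy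

/-- Tie-breaking conventions: friendly or antagonistic. -/
inductive Conv
  | F
  | A

/-- The choice of the mover among a finite set of candidate pairs (own total, total of the
opponent): first the largest first coordinate `a`, then among the candidates with first
coordinate `a` the largest (convention `F`) or smallest (convention `A`) second coordinate.
For the empty set of candidates the value is `(0, 0)`. -/
noncomputable def best (c : Conv) (T : Finset (ℕ × ℕ)) : ℕ × ℕ :=
  match c with
  | Conv.F => (T.sup Prod.fst, (T.filter fun p => p.1 = T.sup Prod.fst).sup Prod.snd)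
  | Conv.A => (T.sup Prod.fst, sInf {b : ℕ | (T.sup Prod.fst, b) ∈ T})

/-- The pair of totals (player to move, other player) on the heap `h`, if the player to move has
the convention `c` and the other one the convention `d`. The candidates are the pairs
`(s + o^2_{dc}(h - s), o^1_{dc}(h - s))` for the legal moves `s`. -/
noncomputable def out (S : Finset ℕ) (c d : Conv) (h : ℕ) : ℕ × ℕ :=
  best c (((S.filter fun s => 1 ≤ s ∧ s ≤ h).attach).image fun s =>
    (s.1 + (out S d c (h - s.1)).2, (out S d c (h - s.1)).1))
termination_by h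
decreasing_by
  all_goals
    have := (Finset.mem_filter.1 s.2).2
    omega

theorem best_empty (c : Conv) : best c ∅ = (0, 0) := by
  cases c <;> simp [best]

theorem le_best (c : Conv) (T : Finset (ℕ × ℕ)) {p : ℕ × ℕ} (hp : p ∈ T) :
    p.1 ≤ (best c T).1 := by
  cases c <;> exact Finset.le_sup (f := Prod.fst) hp

theorem best_mem (c : Conv) (T : Finset (ℕ × ℕ)) (hT : T.Nonempty) : best c T ∈ T := by
  obtain ⟨p, hp, hpa⟩ := Finset.exists_mem_eq_sup T hT Prod.fst
  cases c
  · have hne : (T.filter fun p => p.1 = T.sup Prod.fst).Nonempty :=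
      ⟨p, Finset.mem_filter.2 ⟨hp, hpa.symm⟩⟩
    obtain ⟨q, hq, hqb⟩ := Finset.exists_mem_eq_sup _ hne Prod.snd
    obtain ⟨hq1, hq2⟩ := Finset.mem_filter.1 hq
    have : best Conv.F T = q := by
      unfold best
      simp only
      rw [hqb, ← hq2]
    rw [this]
    exact hq1
  · have hne : {b : ℕ | (T.sup Prod.fst, b) ∈ T}.Nonempty := ⟨p.2, by
      show (T.sup Prod.fst, p.2) ∈ T
      rw [hpa]; exact hp⟩
    exact Nat.sInf_mem hne

/-- The bounds for the totals. -/
theorem bounds (S : Finset ℕ) (hS : S.Nonempty) (hpos : ∀ s ∈ S, 1 ≤ s) (h : ℕ) :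
    ∀ c d : Conv, (out S c d h).1 + (out S c d h).2 ≤ h ∧ h ≤ 2 * (out S c d h).1 + S.max' hS ∧
      h ≤ 2 * (out S c d h).2 + 2 * S.max' hS := by
  induction h using Nat.strong_induction_on with
  | _ h ih =>
    intro c d
    have hM : S.max' hS ∈ S := S.max'_mem hS
    have hM1 : 1 ≤ S.max' hS := hpos _ hM
    set T := ((S.filter fun s => 1 ≤ s ∧ s ≤ h).attach).image fun s =>
      (s.1 + (out S d c (h - s.1)).2, (out S d c (h - s.1)).1) with hT
    have hout : out S c d h = best c T := by rw [out]
    have hmem : ∀ s ∈ S, s ≤ h →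
        (s + (out S d c (h - s)).2, (out S d c (h - s)).1) ∈ T := by
      intro s hs hsh
      rw [hT, Finset.mem_image]
      exact ⟨⟨s, Finset.mem_filter.2 ⟨hs, hpos s hs, hsh⟩⟩, Finset.mem_attach _ _, rfl⟩
    rcases T.eq_empty_or_nonempty with he | hne
    · have hlt : h < S.max' hS := by
        by_contra hcon
        push Not at hcon
        have := hmem _ hM hcon
        rw [he] at this
        simp at this
      rw [hout, he, best_empty]
      simp only
      omega
    · have hb := best_mem c T hne
      rw [← hout, hT, Finset.mem_image] at hb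
      obtain ⟨⟨s, hs⟩, -, hs2⟩ := hb
      obtain ⟨hsS, hs1, hsh⟩ := Finset.mem_filter.1 hs
      simp only at hs2
      have hsM : s ≤ S.max' hS := S.le_max' s hsS
      obtain ⟨i1, i2, i3⟩ := ih (h - s) (by omega) d c
      have e1 : (out S c d h).1 = s + (out S d c (h - s)).2 := by rw [← hs2]
      have e2 : (out S c d h).2 = (out S d c (h - s)).1 := by rw [← hs2]
      refine ⟨by omega, ?_, by omega⟩
      rcases lt_or_ge h (S.max' hS) with hlt | hge
      · omega
      · have hle := le_best c T (hmem _ hM hge)
        rw [← hout] at hle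
        simp only at hle
        obtain ⟨j1, j2, j3⟩ := ih (h - S.max' hS) (by omega) d c
        omega

/-- Every discrepancy is at most `3/2 * max S` in absolute value. -/
theorem result (S : Finset ℕ) (hS : S.Nonempty) (hpos : ∀ s ∈ S, 1 ≤ s) (c d c' d' : Conv)
    (h : ℕ) :
    2 * |((out S c' d' h).1 : ℤ) - ((out S c d h).1 : ℤ)| ≤ 3 * (S.max' hS : ℤ) ∧
    2 * |((out S c' d' h).2 : ℤ) - ((out S c d h).2 : ℤ)| ≤ 3 * (S.max' hS : ℤ) := by
  obtain ⟨a1, a2, a3⟩ := bounds S hS hpos h c d
  obtain ⟨b1, b2, b3⟩ := bounds S hS hpos h c' d'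
  constructor
  · rcases abs_cases (((out S c' d' h).1 : ℤ) - ((out S c d h).1 : ℤ)) with ⟨e, _⟩ | ⟨e, _⟩ <;>
      rw [e] <;> omega
  · rcases abs_cases (((out S c' d' h).2 : ℤ) - ((out S c d h).2 : ℤ)) with ⟨e, _⟩ | ⟨e, _⟩ <;>
      rw [e] <;> omega

end Pool.Agent.Results.MP_5cfb27_co.BoundedDiscrepancy
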